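import Pool.Agent.X32.Uni.ModT

/-!
# Arbitrary `k`-tuples, admissible or not: one prime, one `P₂` and almost primes up to prescribed factors, exactly

Let `a_1, ..., a_k` be ANY distinct integers (the tuple need not be admissible), let `n₀ ≥ 0` be an integer with
`n₀ + a_l ≠ 0` for all `l` (the model), and let `Q ≥ 1`, `L ≥ 0`, `i ≠ j`. Then there are `C`, `t` and `κ > 0` such that for
all large `X` and all `(A, B]` with `B ≤ X`, `B - A ≥ θ X` there are at least `κ (B - A) V` integers `N` of `(A, B]` for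
which
* `N + a_l = (n₀ + a_l) w_l` for all `l`, where `w_i` is `±` a prime, `w_j` is a product of at most two primes
  `> X ^ (1 / 9)`, all the `w_l` are products of at most `t` primes `> X ^ (1 / t)`, and all `w_l ≡ 1 mod Q`;
* for ALL other `|h| ≤ L` with `n₀ + h ≠ 0`: `N + h = (n₀ + h) w`, `w ≡ 1 mod Q`, and `w` has a prime factor `≤ C`.
Here `V = ∏_{z < p ≤ X} (1 - ν_p / p)`, so this is the conjectured order of magnitude for prime `w_1, ..., w_k`. For every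
colouring these `N` are covered, up to `δ (B - A) V` of them, by disjoint monochromatic progressions of length `s` with
differences `≤ (log X) ^ c`.

So the multiplicative structure of every finite window can be prescribed: it is the one of the window at `n₀`, up to
cofactors which are almost primes exactly at the prescribed places. Without a model (`k`-tuples conjecture) the tuple
would have to be admissible.
-/

set_option autoImplicit false

namespace Pool.Agent.Results.MP_8923e7_nt.ExactModelTuples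

open Finset

variable {k : ℕ}

/-- `|v| > 1`, and `|v|` is a product of at most `r` primes, all of them larger than `y` -/
def Almost (r : ℕ) (y : ℝ) (v : ℤ) : Prop :=
  1 < |v| ∧ v.natAbs.primeFactorsList.length ≤ r ∧ ∀ q : ℕ, q.Prime → (q : ℤ) ∣ v → y < q

/-- `ν_p`: the number of the residues `x` modulo `p` for which `p` divides one of the `x + a_l` -/
def nu (a : Fin k → ℤ) (p : ℕ) : ℕ := ((range p).filter (fun x : ℕ => (p : ℤ) ∣ ∏ l, ((x : ℤ) + a l))).card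

/-- the other shifts `h`, `|h| ≤ L`, with `n₀ + h ≠ 0` -/
noncomputable def others (a : Fin k → ℤ) (n₀ L : ℕ) : Finset ℤ :=
  (Icc (-(L : ℤ)) L).filter (fun h => (∀ l, a l ≠ h) ∧ (n₀ : ℤ) + h ≠ 0)

/-- `z = Q ∏ |n₀ + a_l| ∏ |n₀ + h|`, the last product over the other shifts -/
noncomputable def zz (a : Fin k → ℤ) (n₀ Q L : ℕ) : ℕ :=
  Q * ((∏ l, ((n₀ : ℤ) + a l).natAbs) * ∏ h ∈ others a n₀ L, ((n₀ : ℤ) + h).natAbs)

/-- the product of `1 - ν_p / p` over the primes of `(z, X]` -/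
noncomputable def V (a : Fin k → ℤ) (n₀ Q L X : ℕ) : ℝ :=
  ∏ p ∈ (Ioc (zz a n₀ Q L) X).filter Nat.Prime, (1 - (nu a p : ℝ) / p)

open Classical in
/-- the integers `N` of `(A, B]` described above -/
noncomputable def Good (a : Fin k → ℤ) (i j : Fin k) (n₀ Q L C t X A B : ℕ) : Finset ℕ :=
  (Ioc A B).filter (fun N : ℕ => (∃ w : Fin k → ℤ,
    (∀ l, (N : ℤ) + a l = ((n₀ : ℤ) + a l) * w l ∧ w l ≡ 1 [ZMOD (Q : ℤ)] ∧
      Almost (1 * t) ((X : ℝ) ^ (1 / (t : ℝ))) (w l)) ∧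
    (w i).natAbs.Prime ∧ Almost 2 ((X : ℝ) ^ (1 / 9 : ℝ)) (w j)) ∧
    ∀ h ∈ others a n₀ L, ∃ w : ℤ, (N : ℤ) + h = ((n₀ : ℤ) + h) * w ∧ w ≡ 1 [ZMOD (Q : ℤ)] ∧
      ∃ q : ℕ, q.Prime ∧ q ≤ C ∧ (q : ℤ) ∣ w)

/-- the terms `N, N + d, ..., N + (s - 1) d` of the progression `z = (N, d)` -/
def terms (s : ℕ) (z : ℕ × ℕ) : Finset ℕ := (range s).image (fun i => z.1 + i * z.2)

theorem result (a : Fin k → ℤ) (hinj : Function.Injective a) (i j : Fin k) (hij : i ≠ j) (n₀ Q L : ℕ) (hQ : 1 ≤ Q)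
    (hn₀ : ∀ l, (n₀ : ℤ) + a l ≠ 0) :
    ∃ C t : ℕ, 1 ≤ t ∧ ∃ κ : ℝ, 0 < κ ∧ ∀ (s r : ℕ) (θ δ : ℝ), 1 ≤ s → 0 < θ → 0 < δ → ∃ c X₀ : ℕ, ∀ X : ℕ, X₀ ≤ X →
      κ / Real.log X ^ k ≤ V a n₀ Q L X ∧
      ∀ A B : ℕ, B ≤ X → θ * X ≤ (B : ℝ) - A →
        κ * ((B : ℝ) - A) * V a n₀ Q L X ≤ ((Good a i j n₀ Q L C t X A B).card : ℝ) ∧
        ∀ χ : ℕ → Fin r, ∃ P : Finset (ℕ × ℕ),
          (∀ z ∈ P, 1 ≤ z.2 ∧ (z.2 : ℝ) ≤ Real.log X ^ c ∧
            ∀ l < s, z.1 + l * z.2 ∈ Good a i j n₀ Q L C t X A B ∧ χ (z.1 + l * z.2) = χ z.1) ∧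
          (P : Set (ℕ × ℕ)).PairwiseDisjoint (terms s) ∧
          (((Good a i j n₀ Q L C t X A B \ P.biUnion (terms s)).card : ℕ) : ℝ) ≤
            δ * ((B : ℝ) - A) * V a n₀ Q L X :=
  Pool.Agent.X32.Uni.tupM a hinj i j hij n₀ Q L hQ hn₀

end Pool.Agent.Results.MP_8923e7_nt.ExactModelTuples
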