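import Pool.Agent.X31.F2

/-!
# The prime tuples conjecture for all the vectors of shifts near the values of generalised polynomials

`f_i(t) = ∑ a_x t ^ x`, `i = 1, ..., k`, are arbitrary finite real combinations of real powers of `t` with positive
largest exponents `c_i` (for instance `t ^ {3/2}`, `√2 t ^ 3 + t`). For almost all vectors `(n_1, ..., n_k)` of elements of
ARBITRARY dense sets `𝒜_i ⊆ {1, ..., Y_i}` (for instance: primes), ALL admissible vectors `(h_1, ..., h_k)` of different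
nonzero integers with `|h_i - (b_i + f_i(n_i))| ≤ log ^ D N` satisfy the asymptotic formula of Hardy and Littlewood for the
number of the `n` with `n, n + h_1, ..., n + h_k` all prime, in every window of length at least `N / log ^ A N`.

The bound for the real additive energy of all generalised polynomials is from `Pool.Agent.X31` (`gp_EB`, in this
run); the theorem for products of families with small energies is `Pool.Agent.TH935.TF.fam_sys` (starting files).
-/

set_option autoImplicit false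

namespace Pool.Agent.Results.MP_8923e7_nt.GeneralisedPolynomialShifts

open Finset Filter Topology
open Pool.Agent.TH935.TF

/-- the generalised polynomial with the exponents `x ∈ F` and the coefficients `a x` -/
noncomputable def f (F : Finset ℝ) (a : ℝ → ℝ) (t : ℝ) : ℝ := ∑ x ∈ F, a x * t ^ x

/-- The number of the `n` with `y₁ < n ≤ y₂` for which `n` and all the `n + h i` are primes. -/
def count {k : ℕ} (h : Fin k → ℤ) (y₁ y₂ : ℕ) : ℕ :=
  ((Ioc y₁ y₂).filter (fun n : ℕ => n.Prime ∧ ∀ i, ((n : ℤ) + h i).toNat.Prime)).card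

/-- For every prime `p` there is an `r` such that `p` divides neither `r` nor any `r + h i`. -/
def Admissible {k : ℕ} (h : Fin k → ℤ) : Prop :=
  ∀ p : ℕ, p.Prime → ∃ r : ℤ, ¬ (p : ℤ) ∣ r ∧ ∀ i, ¬ (p : ℤ) ∣ r + h i

/-- The number of the `r < p` for which `p` divides `r` or one of the `r + h i`. -/
def nu {k : ℕ} (h : Fin k → ℤ) (p : ℕ) : ℕ :=
  ((range p).filter (fun r : ℕ => (p : ℤ) ∣ (r : ℤ) ∨ ∃ i, (p : ℤ) ∣ (r : ℤ) + h i)).card

/-- The partial products `∏_{p ≤ z} (1 - ν(p) / p) / (1 - 1 / p) ^ (k + 1)` of the singular series. -/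
noncomputable def sing {k : ℕ} (h : Fin k → ℤ) (z : ℕ) : ℝ :=
  ∏ p ∈ (Icc 1 z).filter Nat.Prime, (1 - (nu h p : ℝ) / p) / (1 - 1 / (p : ℝ)) ^ (k + 1)

/-- The singular series converges to a number `S ≥ δ`, and for every window `(y₁, y₂]` with `y₂ ≤ B N`, `0 ≤ y₁ + h i` for
all `i`, and `y₂ - y₁ ≥ N / log ^ A N`, the number of the `n` in the window for which `n, n + h 1, ..., n + h k` are primes
agrees with `S (y₂ - y₁) / log ^ (k + 1) N` up to a relative error of at most `ε`. -/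
def Holds (ε δ : ℝ) (A B N : ℕ) {k : ℕ} (h : Fin k → ℤ) : Prop :=
  ∃ S : ℝ, δ ≤ S ∧ Tendsto (sing h) atTop (𝓝 S) ∧
    ∀ y₁ y₂ : ℕ, y₁ < y₂ → y₂ ≤ B * N → (∀ i, 0 ≤ (y₁ : ℤ) + h i) → (N : ℝ) / Real.log N ^ A ≤ (y₂ : ℝ) - y₁ →
      |(count h y₁ y₂ : ℝ) - S * ((y₂ : ℝ) - y₁) / Real.log N ^ (k + 1)| ≤
        ε * (S * ((y₂ : ℝ) - y₁) / Real.log N ^ (k + 1))

lemma om_eq {k : ℕ} (h : Fin k → ℤ) (p : ℕ) :
    om (consA (fun _ : Fin k => (1 : ℤ))) (consB h) p = nu h p := by
  unfold om nu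
  congr 1
  apply filter_congr
  intro r _
  constructor
  · rintro ⟨i, hi⟩
    revert hi
    refine Fin.cases ?_ (fun i => ?_) i
    · intro hi
      left
      rw [consA_zero, consB_zero, one_mul, add_zero] at hi
      exact hi
    · intro hi
      right
      rw [consA_succ, consB_succ, one_mul] at hi
      exact ⟨i, hi⟩
  · rintro (hi | ⟨i, hi⟩)
    · exact ⟨0, by rw [consA_zero, consB_zero, one_mul, add_zero]; exact hi⟩
    · exact ⟨i.succ, by rw [consA_succ, consB_succ, one_mul]; exact hi⟩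

lemma sing_eq {k : ℕ} (h : Fin k → ℤ) :
    (fun z => Gz (om (consA (fun _ : Fin k => (1 : ℤ))) (consB h)) (k + 1) z) = sing h := by
  funext z
  unfold Gz sing Fq Pool.Agent.H373R2.T7.pz
  apply prod_congr rfl
  intro p _
  rw [om_eq h p]

lemma adm_of {k : ℕ} (h : Fin k → ℤ) (hadm : Admissible h) :
    Adm (consA (fun _ : Fin k => (1 : ℤ))) (consB h) := by
  intro p hp
  obtain ⟨r, h1, h2⟩ := hadm p hp
  refine ⟨r, fun i => ?_⟩
  refine Fin.cases ?_ (fun i => ?_) i
  · rw [consA_zero, consB_zero, one_mul, add_zero]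
    exact h1
  · rw [consA_succ, consB_succ, one_mul]
    exact h2 i

lemma dist_of {k : ℕ} (h : Fin k → ℤ) (h0 : ∀ i, h i ≠ 0) (hd : Function.Injective h) :
    Dist (consA (fun _ : Fin k => (1 : ℤ))) (consB h) := by
  intro i j hij
  revert hij
  refine Fin.cases ?_ (fun i => ?_) i <;> refine Fin.cases ?_ (fun j => ?_) j
  · intro h
    exact absurd rfl h
  · intro _
    simp only [consA_zero, consA_succ, consB_zero, consB_succ]
    have := h0 j
    constructor <;> omega
  · intro _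
    simp only [consA_zero, consA_succ, consB_zero, consB_succ]
    have := h0 i
    constructor <;> omega
  · intro hne
    simp only [consA_succ, consB_succ]
    have h1 : h i ≠ h j := fun h2 => hne (by rw [hd h2])
    constructor
    · rintro ⟨_, h3⟩
      exact h1 h3
    · omega

lemma cn_eq {k : ℕ} (h : Fin k → ℤ) (y₁ y₂ : ℕ) (hy : ∀ i, 0 ≤ (y₁ : ℤ) + h i) :
    cn (consA (fun _ : Fin k => (1 : ℤ))) (consB h) y₁ y₂ = count h y₁ y₂ := by
  unfold cn count
  congr 1
  apply filter_congr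
  intro n hn
  rw [mem_Ioc] at hn
  have e : ∀ i, (1 * (n : ℤ) + h i).natAbs = ((n : ℤ) + h i).toNat := by
    intro i
    have := hy i
    omega
  constructor
  · intro h1
    refine ⟨?_, fun i => ?_⟩
    · have h2 := h1 0
      rw [consA_zero, consB_zero, one_mul, add_zero, Int.natAbs_natCast] at h2
      exact h2
    · have h2 := h1 i.succ
      rw [consA_succ, consB_succ, e i] at h2
      exact h2
  · rintro ⟨h1, h2⟩ i
    refine Fin.cases ?_ (fun i => ?_) i
    · rw [consA_zero, consB_zero, one_mul, add_zero, Int.natAbs_natCast]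
      exact h1
    · rw [consA_succ, consB_succ, e i]
      exact h2 i

/-- For every `k ≥ 1` there is `δ > 0` with the following property. Let `f_i = f (F i) (a i)`, `i = 1, ..., k`, be
arbitrary generalised polynomials with the largest exponents `c i > 0` and `a i (c i) ≠ 0`, let `A`, `B`, `D`, `U` be
natural numbers and `ε > 0`. For all sufficiently large `N` and all `Y i` with
`N / log ^ D N ≤ (Y i) ^ (c i) ≤ N`, ALL sets `𝒜 i ⊆ {1, ..., Y i}` with at least `Y i / log ^ D N` elements and all real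
`b i` with `|b i| ≤ N`: for all but at most `(∏ #(𝒜 i)) / log ^ U N` of the vectors `n` with `n i ∈ 𝒜 i`, ALL admissible
vectors `h` of different nonzero integers with `|h i - (b i + f_i(n i))| ≤ log ^ D N` satisfy `Holds ε δ A B N h`. -/
theorem result : ∀ k : ℕ, 1 ≤ k → ∃ δ : ℝ, 0 < δ ∧
      ∀ (F : Fin k → Finset ℝ) (a : Fin k → ℝ → ℝ) (c : Fin k → ℝ),
        (∀ i, c i ∈ F i ∧ (∀ x ∈ F i, x ≤ c i) ∧ a i (c i) ≠ 0 ∧ 0 < c i) →
      ∀ (A B D U : ℕ) (ε : ℝ), 0 < ε → ∃ N₀ : ℕ, ∀ N : ℕ, N₀ ≤ N →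
      ∀ (Y : Fin k → ℕ) (𝒜 : Fin k → Finset ℕ) (b : Fin k → ℝ),
        (∀ i, (N : ℝ) / Real.log N ^ D ≤ (Y i : ℝ) ^ (c i) ∧ (Y i : ℝ) ^ (c i) ≤ N ∧
          𝒜 i ⊆ Icc 1 (Y i) ∧ (Y i : ℝ) / Real.log N ^ D ≤ (𝒜 i).card ∧ |b i| ≤ N) →
      ∃ E : Finset (Fin k → ℕ), (E.card : ℝ) ≤ (∏ i, ((𝒜 i).card : ℝ)) / Real.log N ^ U ∧
        ∀ n : Fin k → ℕ, (∀ i, n i ∈ 𝒜 i) → n ∉ E → ∀ h : Fin k → ℤ, (∀ i, h i ≠ 0) →
          Function.Injective h → Admissible h →
          (∀ i, |(h i : ℝ) - (b i + f (F i) (a i) (n i))| ≤ Real.log N ^ D) → Holds ε δ A B N h := by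
  classical
  intro k hk
  obtain ⟨δ, hδ, hlow⟩ := Gz_low (k + 1) (by omega)
  refine ⟨δ, hδ, fun F a c hF A B D U ε hε => ?_⟩
  obtain ⟨N₀, h0⟩ := Pool.Agent.X31.gp_tuples F a c (fun i => (hF i).1) (fun i => (hF i).2.1)
    (fun i => (hF i).2.2.1) (fun i => (hF i).2.2.2) D U _
    (fun h _ => Pool.Agent.X31.famT_sys (sys_lam k hk) hk h A B 0 ε hε)
  refine ⟨N₀ + 3, fun N hN Y 𝒜 b hdat => ?_⟩
  have hl : 0 < Real.log N := Real.log_pos (by exact_mod_cast (by omega : 1 < N))
  refine ⟨(Fintype.piFinset 𝒜).filter (fun n => ¬ ∀ h : Fin k → ℤ, (∀ i, h i ≠ 0) →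
          Function.Injective h → Admissible h →
          (∀ i, |(h i : ℝ) - (b i + f (F i) (a i) (n i))| ≤ Real.log N ^ D) → Holds ε δ A B N h), ?_, ?_⟩
  swap
  · intro n hn hnE
    rw [mem_filter] at hnE
    by_contra hcon
    exact hnE ⟨Fintype.mem_piFinset.2 hn, hcon⟩
  · apply h0 N (by omega) Y 𝒜 b (fun i => ?_) _ (filter_subset _ _)
    · intro n hn
      rw [mem_filter] at hn
      obtain ⟨_, hn⟩ := hn
      push Not at hn
      obtain ⟨m, hm0, hmi, hadm, hm1, hm2⟩ := hn
      refine ⟨m, fun i => ?_, fun hG => hm2 ?_⟩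
      · have := hm1 i
        unfold f at this
        unfold Pool.Agent.X31.gp
        exact this
      · have hA := adm_of m hadm
        have hD := dist_of m hm0 hmi
        obtain ⟨S, hS0, hS1, hS2⟩ := hG (fun _ => (1 : ℤ)) (fun _ => by norm_num) (fun _ => by norm_num) hA hD
        have hloc := loc_of hA hD ((sys_lam k hk).ne _ (fun _ => by norm_num))
        refine ⟨S, ?_, ?_, fun y₁ y₂ h12 hy2 hy3 hw => ?_⟩
        · exact ge_of_tendsto' hS1 (fun z => hlow _ _ hloc z)
        · rw [← sing_eq m]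
          exact hS1
        · have h3 := hS2 y₁ y₂ h12.le hy2 hw
          rw [cn_eq m y₁ y₂ hy3] at h3
          exact h3
    · obtain ⟨d1, d2, d3, d4, d5⟩ := hdat i
      rw [div_le_iff₀ (by positivity)] at d1 d4
      exact ⟨d2, d1, d3, d4, d5⟩

end Pool.Agent.Results.MP_8923e7_nt.GeneralisedPolynomialShifts
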