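import Mathlib
import Pool.Agent.X34.E.E6
import Pool.Agent.X34.E.E4

/-!
# Every admissible 45-tuple contains a pattern which is realised along narrow arithmetic progressions

Let `S` be an admissible set of 45 integers. There is a subset `B` of `S` with at least two elements such that
for all `R` and `l` there are arithmetic progressions of length `l` with differences at most `(log N) ^ C`, and
`N / (log N) ^ C` of them with the same difference up to `N`, at all of whose terms `n` the primes at distance at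
most `R` from `n` are exactly the `n + b`, `b ∈ B`, while no `n + s`, `s ∈ S`, has a prime factor `≤ N ^ κ`.
-/

set_option autoImplicit false

open Finset Filter

namespace Pool.Agent.Results.MP_8923e7_nt.NarrowFortyFive

/-- `n ≡ r (mod q)`, the primes at distance at most `R` from `n` are exactly the `n + b`, `b ∈ B`, and the
numbers `n + s`, `s ∈ S`, have no prime factors `≤ z` -/
def Pattern (q : ℕ) (r : ℤ) (S B : Finset ℤ) (R : ℕ) (z : ℝ) (n : ℕ) : Prop :=
  (n : ℤ) ≡ r [ZMOD q] ∧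
    (∀ y : ℤ, |y| ≤ R → ((∃ p : ℕ, p.Prime ∧ (p : ℤ) = n + y) ↔ y ∈ B)) ∧
    ∀ s ∈ S, ∀ p : ℕ, p.Prime → (p : ℝ) ≤ z → ¬ (p : ℤ) ∣ (n : ℤ) + s

/-- There is an absolute constant `κ > 0` such that for every set `S` of 45 integers which misses a residue
class modulo every prime, and every residue `r` modulo `q` for which all `r + s`, `s ∈ S`, are prime to `q`:
there is `B ⊆ S` with at least two elements such that for all `R` and `l` there is `C` such that for infinitely
many `N` there is `1 ≤ d ≤ (log N) ^ C` such that for at least `N / (log N) ^ C` integers `1 ≤ n ≤ N` all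
`l` numbers `m = n, n + d, ..., n + (l - 1) d` satisfy: `m ≡ r (mod q)`, the primes at distance at most `R`
from `m` are exactly the `m + b`, `b ∈ B`, and no `m + s`, `s ∈ S`, has a prime factor `≤ N ^ κ`. -/
theorem result : ∃ κ : ℝ, 0 < κ ∧ ∀ S : Finset ℤ, S.card = 45 →
    (∀ p : ℕ, p.Prime → ∃ t : ℤ, ∀ s ∈ S, ¬ (p : ℤ) ∣ t + s) →
    ∀ (q : ℕ) (r : ℤ), 0 < q → (∀ s ∈ S, IsCoprime (r + s) (q : ℤ)) →
    ∃ B ⊆ S, 2 ≤ B.card ∧ ∀ R l : ℕ, ∃ C : ℕ, ∃ᶠ N : ℕ in atTop, ∃ d : ℕ, 1 ≤ d ∧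
      (d : ℝ) ≤ Real.log N ^ C ∧ (N : ℝ) / Real.log N ^ C ≤
        (Set.ncard {n : ℕ | 1 ≤ n ∧ n ≤ N ∧
          ∀ t < l, Pattern q r S B R ((N : ℝ) ^ κ) (n + t * d)} : ℝ) := by
  classical
  obtain ⟨k, hk, h⟩ := Pool.Agent.X34.E.exactN_of Pool.Agent.X34.E.dhl45R
  refine ⟨k, hk, fun S hS hadm q r hq hr => ?_⟩
  obtain ⟨B, hB, hB2, h⟩ := h S hS hadm q r hq hr
  refine ⟨B, hB, hB2, fun R l => ?_⟩
  obtain ⟨C, hC⟩ := h R l
  refine ⟨C, hC.mono ?_⟩
  rintro N ⟨d, hd1, hd2, hd3⟩
  refine ⟨d, hd1, hd2, hd3.trans ?_⟩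
  rw [← Set.ncard_coe_finset, Nat.cast_le]
  apply Set.ncard_le_ncard
  · intro n hn
    rw [mem_coe, mem_filter, mem_Icc] at hn
    exact ⟨hn.1.1, hn.1.2, fun t ht => hn.2 t ht⟩
  · exact (Set.finite_Iic N).subset fun n hn => hn.2.1

end Pool.Agent.Results.MP_8923e7_nt.NarrowFortyFive
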